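import Pool.Agent.Helper17.R8.Sheet

set_option autoImplicit false

namespace Pool.Helper29.R8

open Pool.Helper17.R8 Polynomial

section poly
variable {R : Type*} [CommRing R]

theorem eval_pI (e : ℕ → R) (t : R) : (pI e).eval t = fI e t := by
  simp [pI, fI, q4, q3, q2, q1, q0]
  ring

theorem eval_pJ (e : ℕ → R) (t : R) : (pJ e).eval t = fJ e t := by
  simp [pJ, fJ, q4, q3, q2, q1, q0]
  ring

theorem pI_eq (e : ℕ → R) : ∃ b c d : R,
    pI e = C (48 * e 2) * X ^ 3 + C b * X ^ 2 + C c * X + C d := by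
  refine ⟨12 * (-4) * (4 * e 8) - 3 * ((2 * e 3 * e 5 - 4 * e 8) * 4 + (-4 * e 2) * (-4 * e 6)) +
      (-4 * e 4) ^ 2,
    12 * (e 3 ^ 2 * (4 * e 8) + (-4) * (e 7 ^ 2 - 4 * e 8 * e 6)) -
      3 * ((2 * e 3 * e 5 - 4 * e 8) * (-4 * e 6) + (-4 * e 2) * (2 * e 5 * e 7 - 4 * e 8 * e 4)) +
      2 * (e 5 ^ 2 + 2 * e 3 * e 7 - 4 * e 8 * e 2) * (-4 * e 4),
    12 * e 3 ^ 2 * (e 7 ^ 2 - 4 * e 8 * e 6) -
      3 * (2 * e 3 * e 5 - 4 * e 8) * (2 * e 5 * e 7 - 4 * e 8 * e 4) +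
      (e 5 ^ 2 + 2 * e 3 * e 7 - 4 * e 8 * e 2) ^ 2, ?_⟩
  unfold pI fI q4 q3 q2 q1 q0
  simp only [map_mul, map_add, map_sub, map_pow, map_neg, C_ofNat]
  ring

theorem pJ_eq (e : ℕ → R) : ∃ Q : R[X], Q.natDegree ≤ 4 ∧ pJ e = C 1728 * X ^ 5 + Q := by
  refine ⟨pJ e - C 1728 * X ^ 5, ?_, by ring⟩
  set a0 : R := e 3 ^ 2 with ha0
  set b0 : R := 2 * e 3 * e 5 - 4 * e 8 with hb0
  set b1 : R := -4 * e 2 with hb1
  set c0 : R := e 5 ^ 2 + 2 * e 3 * e 7 - 4 * e 8 * e 2 with hc0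
  set c1 : R := -4 * e 4 with hc1
  set d0 : R := 2 * e 5 * e 7 - 4 * e 8 * e 4 with hd0
  set d1 : R := -4 * e 6 with hd1
  set f0 : R := e 7 ^ 2 - 4 * e 8 * e 6 with hf0
  set f1 : R := 4 * e 8 with hf1
  have h : pJ e - C 1728 * X ^ 5 =
      C (9 * (b1 * c1 * 4) - 27 * (a0 * 16 + (-4) * (8 * d1))) * X ^ 4 +
      C (72 * ((-4) * c1 * f1) + 9 * ((b0 * c1 + b1 * c0) * 4 + b1 * c1 * d1) -
        27 * (a0 * (8 * d1) + (-4) * (d1 ^ 2 + 8 * d0)) - 27 * (f1 * b1 ^ 2) - 2 * c1 ^ 3) * X ^ 3 +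
      C (72 * ((-4) * c1 * f0 + (-4) * c0 * f1 + a0 * c1 * f1) +
        9 * (b0 * c0 * 4 + (b0 * c1 + b1 * c0) * d1 + b1 * c1 * d0) -
        27 * (a0 * (d1 ^ 2 + 8 * d0) + (-4) * (2 * d0 * d1)) -
        27 * (f0 * b1 ^ 2 + f1 * (2 * b0 * b1)) - 2 * (3 * c0 * c1 ^ 2)) * X ^ 2 +
      C (72 * ((-4) * c0 * f0 + a0 * c1 * f0 + a0 * c0 * f1) +
        9 * (b0 * c0 * d1 + (b0 * c1 + b1 * c0) * d0) -
        27 * (a0 * (2 * d0 * d1) + (-4) * d0 ^ 2) -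
        27 * (f0 * (2 * b0 * b1) + f1 * b0 ^ 2) - 2 * (3 * c0 ^ 2 * c1)) * X +
      C (72 * (a0 * c0 * f0) + 9 * (b0 * c0 * d0) - 27 * (a0 * d0 ^ 2) - 27 * (f0 * b0 ^ 2) -
        2 * c0 ^ 3) := by
    unfold pJ fJ q4 q3 q2 q1 q0
    rw [ha0, hb0, hb1, hc0, hc1, hd0, hd1, hf0, hf1]
    simp only [map_mul, map_add, map_sub, map_pow, map_neg, C_ofNat]
    ring
  rw [h]
  compute_degree

theorem natDegree_pI {K : Type*} [Field K] [CharZero K] (e : ℕ → K) (h : e 2 ≠ 0) :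
    (pI e).natDegree = 3 := by
  obtain ⟨b, c, d, hb⟩ := pI_eq e
  rw [hb]
  exact natDegree_cubic (mul_ne_zero (by norm_num) h)

theorem natDegree_pJ [CharZero R] (e : ℕ → R) :
    (pJ e).natDegree = 5 ∧ (pJ e).leadingCoeff = 1728 := by
  obtain ⟨Q, hQ, h⟩ := pJ_eq e
  have h0 : (C (1728 : R) * X ^ 5).natDegree = 5 :=
    natDegree_C_mul_X_pow 5 _ (by norm_num)
  have h1 : (pJ e).natDegree = 5 := by
    rw [h, natDegree_add_eq_left_of_natDegree_lt (by rw [h0]; omega), h0]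
  refine ⟨h1, ?_⟩
  rw [leadingCoeff, h1, h, coeff_add, coeff_C_mul_X_pow]
  rw [coeff_eq_zero_of_natDegree_lt (lt_of_le_of_lt hQ (by norm_num))]
  simp

end poly

theorem cast_fI (e : ℕ → ℤ) (t : ℤ) :
    ((fI e t : ℤ) : ℚ) = fI (fun k => (e k : ℚ)) (t : ℚ) := by
  unfold fI q4 q3 q2 q1 q0
  push_cast
  ring

theorem cast_fJ (e : ℕ → ℤ) (t : ℤ) :
    ((fJ e t : ℤ) : ℚ) = fJ (fun k => (e k : ℚ)) (t : ℚ) := by
  unfold fJ q4 q3 q2 q1 q0
  push_cast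
  ring

theorem MM_pos : 0 < MM :=
  mul_pos (by norm_num) (by exact_mod_cast Nat.factorial_pos QQ)

theorem dvd_MM (n : ℕ) (h1 : 0 < n) (h2 : n ≤ 1000) : (n : ℤ) ∣ MM := by
  have h : n ∣ Nat.factorial QQ := Nat.dvd_factorial h1 h2
  exact Dvd.dvd.mul_left (Int.natCast_dvd_natCast.2 h) 1728

theorem cong_ww (T : (Fin 6 → ℕ) × ℕ) : Cong (ww T) := by
  refine ⟨fun i => ⟨(T.1 i : ℤ), ?_⟩, ⟨(T.2 : ℤ), ?_⟩⟩
  · simp only [ww]; ring
  · simp only [ww]; ring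

theorem map_ek {R S : Type*} [CommRing R] [CommRing S] (φ : R →+* S) (s : Fin 8 → R) (k : ℕ) :
    φ (ek s k) = ek (fun i => φ (s i)) k := by
  simp [ek, map_sum, map_prod]

theorem map_ss {R S : Type*} [CommRing R] [CommRing S] (φ : R →+* S) (u : Fin 6 → R) :
    (fun i => φ (ss u i)) = ss (fun i => φ (u i)) := by
  funext i
  fin_cases i <;> simp [ss]

theorem base_e2 : ek (ss ub) 2 = -444 := by decide +kernel

theorem e2_ne (w : Par) (h : Cong w) : ek (ss w.1) 2 ≠ 0 := by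
  intro h0
  have h1 : Int.castRingHom (ZMod 5) (ek (ss w.1) 2) = Int.castRingHom (ZMod 5) (ek (ss ub) 2) := by
    rw [map_ek, map_ek, map_ss, map_ss]
    congr 2
    funext i
    have h5 : (5 : ℤ) ∣ w.1 i - ub i := (dvd_MM 5 (by norm_num) (by norm_num)).trans (h.1 i)
    have := (ZMod.intCast_zmod_eq_zero_iff_dvd (w.1 i - ub i) 5).2 (by exact_mod_cast h5)
    push_cast at this
    simpa using sub_eq_zero.1 this
  rw [h0, base_e2] at h1
  revert h1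
  simp
  decide

theorem diag_card (e : ℕ → ℤ) (m : ℕ) (M c : ℤ) (hM : M ≠ 0) :
    ((Finset.range m).filter (fun b : ℕ => fJ e (3 + M * (b : ℤ)) = c)).card ≤ 5 := by
  classical
  set Q : ℤ[X] := pJ e - C c with hQ
  have hd : Q.natDegree = 5 := by
    rw [hQ, natDegree_sub_C, (natDegree_pJ e).1]
  have hQ0 : Q ≠ 0 := by
    intro h
    rw [h] at hd
    simp at hd
  have h1 : ((Finset.range m).filter (fun b : ℕ => fJ e (3 + M * (b : ℤ)) = c)).card ≤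
      Q.roots.toFinset.card := by
    refine Finset.card_le_card_of_injOn (fun b : ℕ => 3 + M * (b : ℤ)) ?_ ?_
    · intro b hb
      have hb' := (Finset.mem_filter.1 hb).2
      simp only [Finset.mem_coe, Multiset.mem_toFinset]
      rw [mem_roots hQ0, IsRoot, hQ, eval_sub, eval_C, eval_pJ, hb', sub_self]
    · intro b _ b' _ hbb
      have h2 : M * (b : ℤ) = M * (b' : ℤ) := by
        have : 3 + M * (b : ℤ) = 3 + M * (b' : ℤ) := hbb
        linarith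
      exact_mod_cast mul_left_cancel₀ hM h2
  refine h1.trans ((Multiset.toFinset_card_le _).trans ((card_roots' Q).trans hd.le))

theorem diag_pairs (e : ℕ → ℤ) (m : ℕ) (M : ℤ) (hM : M ≠ 0) :
    ((Finset.range m ×ˢ Finset.range m).filter
      (fun y : ℕ × ℕ => fJ e (3 + M * (y.1 : ℤ)) = fJ e (3 + M * (y.2 : ℤ)))).card ≤ 5 * m := by
  classical
  set G := (Finset.range m ×ˢ Finset.range m).filter
      (fun y : ℕ × ℕ => fJ e (3 + M * (y.1 : ℤ)) = fJ e (3 + M * (y.2 : ℤ))) with hG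
  have h1 : G.card ≤ 5 * (G.image Prod.fst).card := by
    refine Finset.card_le_mul_card_image G 5 ?_
    intro b _
    refine le_trans ?_ (diag_card e m M (fJ e (3 + M * (b : ℤ))) hM)
    refine Finset.card_le_card_of_injOn Prod.snd ?_ ?_
    · intro y hy
      obtain ⟨hy1, hy2⟩ := Finset.mem_filter.1 hy
      obtain ⟨hy3, hy4⟩ := Finset.mem_filter.1 hy1
      simp only [Finset.coe_filter, Set.mem_ofPred_eq]
      refine ⟨(Finset.mem_product.1 hy3).2, ?_⟩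
      rw [← hy4, hy2]
    · intro y hy y' hy' h
      have h3 := (Finset.mem_filter.1 hy).2
      have h4 := (Finset.mem_filter.1 hy').2
      exact Prod.ext (h3.trans h4.symm) h
  refine h1.trans (Nat.mul_le_mul_left 5 ?_)
  calc (G.image Prod.fst).card ≤ (Finset.range m).card := by
        refine Finset.card_le_card ?_
        intro b hb
        obtain ⟨y, hy, rfl⟩ := Finset.mem_image.1 hb
        exact (Finset.mem_product.1 (Finset.mem_filter.1 hy).1).1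
    _ = m := Finset.card_range m

open Classical in
theorem off_diag (hCURVE : ST_CURVE) (hINJ : ST_INJ) (a a' : Fin 6 → ℕ) (ha : a ≠ a')
    (S : Finset (ℕ × ℕ)) (hS : ∀ y ∈ S,
      fI (ek (ss (ww (a, y.1)).1)) (ww (a, y.1)).2 = fI (ek (ss (ww (a', y.2)).1)) (ww (a', y.2)).2 ∧
      fJ (ek (ss (ww (a, y.1)).1)) (ww (a, y.1)).2 = fJ (ek (ss (ww (a', y.2)).1)) (ww (a', y.2)).2) :
    S.card ≤ 200 := by
  by_contra hcon
  push Not at hcon
  have hM := MM_pos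
  set u : Fin 6 → ℤ := fun i => ub i + MM * (a i : ℤ) with hu
  set u' : Fin 6 → ℤ := fun i => ub i + MM * (a' i : ℤ) with hu'
  set e : ℕ → ℤ := ek (ss u) with he
  set e' : ℕ → ℤ := ek (ss u') with he'
  set eq : ℕ → ℚ := fun k => (e k : ℚ) with heq
  set eq' : ℕ → ℚ := fun k => (e' k : ℚ) with heq'
  set T : Finset (ℚ × ℚ) := S.image (fun y : ℕ × ℕ =>
    (((3 + MM * (y.1 : ℤ) : ℤ) : ℚ), ((3 + MM * (y.2 : ℤ) : ℤ) : ℚ))) with hT
  have hinj : Function.Injective (fun y : ℕ × ℕ =>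
      (((3 + MM * (y.1 : ℤ) : ℤ) : ℚ), ((3 + MM * (y.2 : ℤ) : ℤ) : ℚ))) := by
    intro y y' h
    have h1 : ((3 + MM * (y.1 : ℤ) : ℤ) : ℚ) = ((3 + MM * (y'.1 : ℤ) : ℤ) : ℚ) :=
      congrArg Prod.fst h
    have h2 : ((3 + MM * (y.2 : ℤ) : ℤ) : ℚ) = ((3 + MM * (y'.2 : ℤ) : ℤ) : ℚ) :=
      congrArg Prod.snd h
    have h3 : (3 + MM * (y.1 : ℤ) : ℤ) = 3 + MM * (y'.1 : ℤ) := Int.cast_injective h1
    have h4 : (3 + MM * (y.2 : ℤ) : ℤ) = 3 + MM * (y'.2 : ℤ) := Int.cast_injective h2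
    refine Prod.ext ?_ ?_
    · exact_mod_cast mul_left_cancel₀ hM.ne' (by linarith : MM * (y.1 : ℤ) = MM * (y'.1 : ℤ))
    · exact_mod_cast mul_left_cancel₀ hM.ne' (by linarith : MM * (y.2 : ℤ) = MM * (y'.2 : ℤ))
  have hTc : T.card = S.card := Finset.card_image_of_injective S hinj
  have hc0 : Cong (ww (a, 0)) := cong_ww _
  have hc0' : Cong (ww (a', 0)) := cong_ww _
  have h2 : eq 2 ≠ 0 := by
    have := e2_ne _ hc0
    have h' : e 2 ≠ 0 := this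
    exact Int.cast_ne_zero.2 h'
  have h2' : eq' 2 ≠ 0 := by
    have := e2_ne _ hc0'
    have h' : e' 2 ≠ 0 := this
    exact Int.cast_ne_zero.2 h'
  have hTS : ∀ p ∈ T, (pI eq).eval p.1 = (pI eq').eval p.2 ∧
      (pJ eq).eval p.1 = (pJ eq').eval p.2 := by
    intro p hp
    obtain ⟨y, hy, rfl⟩ := Finset.mem_image.1 hp
    obtain ⟨h3, h4⟩ := hS y hy
    have h3' : fI e (3 + MM * (y.1 : ℤ)) = fI e' (3 + MM * (y.2 : ℤ)) := h3
    have h4' : fJ e (3 + MM * (y.1 : ℤ)) = fJ e' (3 + MM * (y.2 : ℤ)) := h4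
    refine ⟨?_, ?_⟩
    · rw [eval_pI, eval_pI, ← cast_fI, ← cast_fI, h3']
    · rw [eval_pJ, eval_pJ, ← cast_fJ, ← cast_fJ, h4']
  obtain ⟨β, hf, hg, p, hpT, hp⟩ := hCURVE (pI eq) (pI eq') (pJ eq) (pJ eq')
    (natDegree_pI eq h2) (natDegree_pI eq' h2') (natDegree_pJ eq).1 (natDegree_pJ eq').1
    (by rw [(natDegree_pJ eq).2, (natDegree_pJ eq').2]) T hTS (by rw [hTc]; omega)
  · obtain ⟨y, hy, rfl⟩ := Finset.mem_image.1 hpT
    set b : ℤ := MM * ((y.2 : ℤ) - (y.1 : ℤ)) with hb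
    have hβ : β = (b : ℚ) := by
      have : ((3 + MM * (y.2 : ℤ) : ℤ) : ℚ) = ((3 + MM * (y.1 : ℤ) : ℤ) : ℚ) + β := hp
      rw [hb]
      push_cast at this ⊢
      linarith
    have hb29 : (29 : ℤ) ∣ b :=
      (Dvd.dvd.mul_right (by exact_mod_cast dvd_MM 29 (by norm_num) (by norm_num)) _)
    have hkey : ∀ τ : ℤ, fI e' (τ + b) = fI e τ ∧ fJ e' (τ + b) = fJ e τ := by
      intro τ
      constructor
      · have h := congrArg (fun P : ℚ[X] => P.eval (τ : ℚ)) hf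
        simp only [eval_comp, eval_add, eval_X, eval_C, eval_pI] at h
        have h' : ((fI e' (τ + b) : ℤ) : ℚ) = ((fI e τ : ℤ) : ℚ) := by
          rw [cast_fI, cast_fI]
          push_cast
          rw [← hβ]
          exact h
        exact_mod_cast h'
      · have h := congrArg (fun P : ℚ[X] => P.eval (τ : ℚ)) hg
        simp only [eval_comp, eval_add, eval_X, eval_C, eval_pJ] at h
        have h' : ((fJ e' (τ + b) : ℤ) : ℚ) = ((fJ e τ : ℤ) : ℚ) := by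
          rw [cast_fJ, cast_fJ]
          push_cast
          rw [← hβ]
          exact h
        exact_mod_cast h'
    have hfin := hINJ (ww (a, 0)) (ww (a', 0)) hc0 hc0' b hb29 hkey
    apply ha
    funext i
    have h3 : ub i + MM * (a i : ℤ) = ub i + MM * (a' i : ℤ) := congrFun hfin i
    exact_mod_cast mul_left_cancel₀ hM.ne' (by linarith : MM * (a i : ℤ) = MM * (a' i : ℤ))

open Classical in
theorem st_PAIR (hREL : ST_REL) (hCURVE : ST_CURVE) (hINJ : ST_INJ) : ST_PAIR := by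
  intro m hm
  have hM := MM_pos
  set P : Finset (Fin 6 → ℕ) := Fintype.piFinset fun _ : Fin 6 => Finset.range m with hPdef
  have hP : P.card = m ^ 6 := by simp [hPdef]
  set F := (Box m ×ˢ Box m).filter (fun p => cA (ww p.1) = cA (ww p.2) ∧
    cB (ww p.1) = cB (ww p.2)) with hF
  have hbox : ∀ p ∈ F, (p.1.1 ∈ P ∧ p.1.2 ∈ Finset.range (m ^ 6)) ∧
      (p.2.1 ∈ P ∧ p.2.2 ∈ Finset.range (m ^ 6)) := by
    intro p hp
    obtain ⟨h1, h2⟩ := Finset.mem_product.1 (Finset.mem_filter.1 hp).1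
    exact ⟨Finset.mem_product.1 h1, Finset.mem_product.1 h2⟩
  have hmap : ∀ p ∈ F, (p.1.1, p.2.1) ∈ P ×ˢ P := fun p hp =>
    Finset.mem_product.2 ⟨(hbox p hp).1.1, (hbox p hp).2.1⟩
  have hIJ : ∀ p ∈ F, fI (ek (ss (ww p.1).1)) (ww p.1).2 = fI (ek (ss (ww p.2).1)) (ww p.2).2 ∧
      fJ (ek (ss (ww p.1).1)) (ww p.1).2 = fJ (ek (ss (ww p.2).1)) (ww p.2).2 := by
    intro p hp
    obtain ⟨hA, hB⟩ := (Finset.mem_filter.1 hp).2
    obtain ⟨r1, r2, -, -⟩ := hREL (ww p.1) (cong_ww p.1)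
    obtain ⟨s1, s2, -, -⟩ := hREL (ww p.2) (cong_ww p.2)
    rw [hA] at r1
    rw [hB] at r2
    constructor
    · linarith
    · linarith
  rw [Finset.card_eq_sum_card_fiberwise hmap]
  have hfib : ∀ x ∈ P ×ˢ P, (F.filter (fun p => (p.1.1, p.2.1) = x)).card ≤
      200 + (if x.1 = x.2 then 5 * m ^ 6 else 0) := by
    intro x _
    have hinj : Set.InjOn (fun p : ((Fin 6 → ℕ) × ℕ) × ((Fin 6 → ℕ) × ℕ) => (p.1.2, p.2.2))
        (F.filter (fun p => (p.1.1, p.2.1) = x) : Set _) := by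
      intro p hp p' hp' h
      have h1 := (Finset.mem_filter.1 hp).2
      have h2 := (Finset.mem_filter.1 hp').2
      have h3 := h1.trans h2.symm
      obtain ⟨⟨p1, p2⟩, ⟨p3, p4⟩⟩ := p
      obtain ⟨⟨q1, q2⟩, ⟨q3, q4⟩⟩ := p'
      simp only [Prod.mk.injEq] at h h3 ⊢
      exact ⟨⟨h3.1, h.1⟩, ⟨h3.2, h.2⟩⟩
    by_cases hx : x.1 = x.2
    · rw [if_pos hx]
      refine le_trans ?_ (Nat.le_add_left _ _)
      refine le_trans ?_ (diag_pairs (ek (ss (fun i => ub i + MM * (x.1 i : ℤ)))) (m ^ 6) MM hM.ne')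
      refine Finset.card_le_card_of_injOn _ ?_ hinj
      intro p hp
      obtain ⟨hpF, hpx⟩ := Finset.mem_filter.1 hp
      have h1 : p.1.1 = x.1 := congrArg Prod.fst hpx
      have h2 : p.2.1 = x.1 := (congrArg Prod.snd hpx).trans hx.symm
      obtain ⟨-, h4⟩ := hIJ p hpF
      have hb := hbox p hpF
      simp only [Finset.coe_filter, Set.mem_ofPred_eq]
      refine ⟨Finset.mem_product.2 ⟨hb.1.2, hb.2.2⟩, ?_⟩
      rw [← h1]
      have h5 : (fun i => ub i + MM * (p.1.1 i : ℤ)) = (fun i => ub i + MM * (p.2.1 i : ℤ)) := by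
        rw [h1, h2]
      have h4' : fJ (ek (ss (fun i => ub i + MM * (p.1.1 i : ℤ)))) (3 + MM * (p.1.2 : ℤ)) =
        fJ (ek (ss (fun i => ub i + MM * (p.2.1 i : ℤ)))) (3 + MM * (p.2.2 : ℤ)) := h4
      rw [← h5] at h4'
      exact h4'
    · rw [if_neg hx, add_zero, ← Finset.card_image_of_injOn hinj]
      refine off_diag hCURVE hINJ x.1 x.2 hx _ ?_
      intro y hy
      obtain ⟨p, hp, rfl⟩ := Finset.mem_image.1 hy
      obtain ⟨hpF, hpx⟩ := Finset.mem_filter.1 hp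
      have h1 : p.1.1 = x.1 := congrArg Prod.fst hpx
      have h2 : p.2.1 = x.2 := congrArg Prod.snd hpx
      have := hIJ p hpF
      rw [← h1, ← h2]
      exact this
  refine (Finset.sum_le_sum hfib).trans ?_
  rw [Finset.sum_add_distrib, Finset.sum_const, Finset.card_product, hP, Finset.sum_product]
  simp only [Finset.sum_ite_eq]
  rw [Finset.sum_ite_mem, Finset.inter_self, Finset.sum_const, hP]
  simp only [smul_eq_mul]
  apply le_of_eq
  ring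


end Pool.Helper29.R8

theorem Pool.Helper17.R8.st_PAIR (hREL : Pool.Helper17.R8.ST_REL)
    (hCURVE : Pool.Helper17.R8.ST_CURVE) (hINJ : Pool.Helper17.R8.ST_INJ) :
    Pool.Helper17.R8.ST_PAIR :=
  Pool.Helper29.R8.st_PAIR hREL hCURVE hINJ
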